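import Mathlib

/-!
# MP_a33f4b: exponential rate of mean-split quantization under finite variance

We disprove Q1: there is an absolutely continuous probability measure with finite second moment
for which `W₁(μ⁽ⁿ⁾, μ) ≥ c (9/16)ⁿ` for all `n`, so the exponential rate is at least
`log (9/16) > -log 2`.
-/

namespace Pool.Agent.Results.MP_a33f4b_pr.SlowMeanSplit

open MeasureTheory ProbabilityTheory Set Filter Topology
open scoped ENNReal

/-- The mean-split recursion: `T 0 μ = δ_{mean}`, and `T (n+1) μ` is the mixture of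
`T n (μ | x < mean)` and `T n (μ | x ≥ mean)` with the weights `μ(x < mean)`, `μ(x ≥ mean)`. -/
noncomputable def T : ℕ → Measure ℝ → Measure ℝ
  | 0, μ => Measure.dirac (∫ x, x ∂μ)
  | n + 1, μ => μ (Iio (∫ x, x ∂μ)) • T n (ProbabilityTheory.cond μ (Iio (∫ x, x ∂μ)))
      + μ (Ici (∫ x, x ∂μ)) • T n (ProbabilityTheory.cond μ (Ici (∫ x, x ∂μ)))

/-- `W₁(ν, μ) = ∫ |F_ν(t) - F_μ(t)| dt`, as an extended nonnegative real. -/
noncomputable def W1 (ν μ : Measure ℝ) : ℝ≥0∞ :=
  ∫⁻ t, ENNReal.ofReal |ν.real (Iic t) - μ.real (Iic t)|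

/-! ### General facts on `T` -/

lemma cond_integrable {μ : Measure ℝ} (h : Integrable (fun x : ℝ => x) μ) {s : Set ℝ}
    (hs : μ s ≠ 0) : Integrable (fun x : ℝ => x) (ProbabilityTheory.cond μ s) := by
  unfold ProbabilityTheory.cond
  exact (h.restrict).smul_measure (ENNReal.inv_ne_top.2 hs)

lemma T_prob (n : ℕ) : ∀ μ : Measure ℝ, IsProbabilityMeasure μ → IsProbabilityMeasure (T n μ) := by
  induction n with
  | zero => intro μ _; unfold T; infer_instance
  | succ n ih =>
    intro μ hμ
    constructor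
    unfold T
    set m := ∫ x, x ∂μ
    have key : ∀ s : Set ℝ, (μ s • T n (ProbabilityTheory.cond μ s)) univ = μ s := by
      intro s
      by_cases hs : μ s = 0
      · simp [hs]
      · have := ih (ProbabilityTheory.cond μ s) (cond_isProbabilityMeasure hs)
        simp
    rw [Measure.add_apply, key, key]
    rw [← measure_union (by
      rw [disjoint_iff_inter_eq_empty, Iio_inter_Ici, Ico_self]) measurableSet_Ici, Iio_union_Ici]
    exact measure_univ

lemma T_supp (c : ℝ) (n : ℕ) : ∀ μ : Measure ℝ, IsProbabilityMeasure μ →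
    Integrable (fun x : ℝ => x) μ → μ (Ioi c) = 0 → T n μ (Ioi c) = 0 := by
  induction n with
  | zero =>
    intro μ _ hi h0
    unfold T
    have hm : ∫ x, x ∂μ ≤ c := by
      have h1 : ∀ᵐ x ∂μ, x ≤ c := by
        rw [ae_iff]; simpa [Ioi] using h0
      calc ∫ x, x ∂μ ≤ ∫ _, c ∂μ := integral_mono_ae hi (integrable_const c) h1
        _ = c := by simp
    rw [Measure.dirac_apply' _ measurableSet_Ioi]
    simp [hm]
  | succ n ih =>
    intro μ hμ hi h0
    unfold T
    have key : ∀ s : Set ℝ, (μ s • T n (ProbabilityTheory.cond μ s)) (Ioi c) = 0 := by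
      intro s
      by_cases hs : μ s = 0
      · simp [hs]
      · rw [Measure.smul_apply, ih (ProbabilityTheory.cond μ s) (cond_isProbabilityMeasure hs)
          (cond_integrable hi hs) (cond_absolutelyContinuous h0), smul_zero]
    rw [Measure.add_apply, key, key, add_zero]

/-- scaling -/
lemma cond_map (r : ℝ) (μ : Measure ℝ) (s : Set ℝ) (hs : MeasurableSet s) :
    ProbabilityTheory.cond (μ.map (fun x => r * x)) s = (ProbabilityTheory.cond μ ((fun x => r * x) ⁻¹' s)).map (fun x => r * x) := by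
  have hm : Measurable fun x : ℝ => r * x := by fun_prop
  unfold ProbabilityTheory.cond
  rw [Measure.map_apply hm hs, Measure.restrict_map hm hs, Measure.map_smul]

lemma T_map (r : ℝ) (hr : 0 < r) (n : ℕ) : ∀ μ : Measure ℝ,
    T n (μ.map (fun x => r * x)) = (T n μ).map (fun x => r * x) := by
  have hm : Measurable fun x : ℝ => r * x := by fun_prop
  have hmean : ∀ μ : Measure ℝ, ∫ x, x ∂(μ.map (fun x => r * x)) = r * ∫ x, x ∂μ := by
    intro μ
    rw [integral_map (f := fun x : ℝ => x) hm.aemeasurable aestronglyMeasurable_id,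
      integral_const_mul]
  induction n with
  | zero =>
    intro μ
    unfold T
    rw [hmean, Measure.map_dirac' hm]
  | succ n ih =>
    intro μ
    have e1 : (fun x : ℝ => r * x) ⁻¹' Iio (r * ∫ x, x ∂μ) = Iio (∫ x, x ∂μ) := by
      ext x; simp only [mem_preimage, mem_Iio, mul_lt_mul_iff_right₀ hr]
    have e2 : (fun x : ℝ => r * x) ⁻¹' Ici (r * ∫ x, x ∂μ) = Ici (∫ x, x ∂μ) := by
      ext x; simp only [mem_preimage, mem_Ici, mul_le_mul_iff_right₀ hr]
    unfold T
    rw [hmean, cond_map r μ _ measurableSet_Iio, cond_map r μ _ measurableSet_Ici, e1, e2,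
      ih, ih, Measure.map_apply hm measurableSet_Iio, Measure.map_apply hm measurableSet_Ici, e1, e2,
      Measure.map_add _ _ hm, Measure.map_smul, Measure.map_smul]

/-! ### The law -/

/-- the uniform law on `[1, 21/20]`. -/
noncomputable def U : Measure ℝ := (20 : ℝ≥0∞) • volume.restrict (Icc (1 : ℝ) (21 / 20))

instance : IsProbabilityMeasure U := by
  constructor
  unfold U
  rw [Measure.smul_apply, Measure.restrict_apply_univ, Real.volume_Icc, smul_eq_mul]
  rw [show (20 : ℝ≥0∞) = ENNReal.ofReal 20 by simp, ← ENNReal.ofReal_mul (by norm_num)]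
  norm_num

lemma U_mem : ∀ᵐ x ∂U, x ∈ Icc (1 : ℝ) (21 / 20) := by
  unfold U
  exact Measure.ae_smul_measure (ae_restrict_mem measurableSet_Icc) _

/-- The self-similar law: with probability `(5/8) (3/8)^k` it is `(3/2)^k` times a uniform variable
on `[1, 21/20]`. -/
noncomputable def M : Measure ℝ :=
  Measure.sum fun k : ℕ => (5 / 8 * (3 / 8) ^ k : ℝ≥0∞) • U.map (fun x => (3 / 2 : ℝ) ^ k * x)

lemma geo : ∑' k : ℕ, (5 / 8 * (3 / 8) ^ k : ℝ≥0∞) = 1 := by
  rw [ENNReal.tsum_mul_left, ENNReal.tsum_geometric]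
  rw [show (1 : ℝ≥0∞) - 3 / 8 = 5 / 8 by
    rw [show (3 / 8 : ℝ≥0∞) = ENNReal.ofReal (3 / 8) by
      rw [ENNReal.ofReal_div_of_pos (by norm_num)]; simp,
      show (5 / 8 : ℝ≥0∞) = ENNReal.ofReal (5 / 8) by
      rw [ENNReal.ofReal_div_of_pos (by norm_num)]; simp, ← ENNReal.ofReal_one,
      ← ENNReal.ofReal_sub _ (by norm_num)]
    norm_num]
  refine ENNReal.mul_inv_cancel (by simp) (ENNReal.div_ne_top (by simp) (by simp))

instance : IsProbabilityMeasure M := by
  constructor
  unfold M
  rw [Measure.sum_apply _ MeasurableSet.univ]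
  have : ∀ k : ℕ, ((5 / 8 * (3 / 8) ^ k : ℝ≥0∞) • U.map (fun x => (3 / 2 : ℝ) ^ k * x)) univ
      = 5 / 8 * (3 / 8) ^ k := by
    intro k
    rw [Measure.smul_apply, Measure.map_apply (by fun_prop) MeasurableSet.univ, preimage_univ,
      measure_univ, smul_eq_mul, mul_one]
  simp only [this]
  exact geo

/-- self-similarity -/
lemma M_self : M = (5 / 8 : ℝ≥0∞) • U + (3 / 8 : ℝ≥0∞) • M.map (fun x => (3 / 2 : ℝ) * x) := by
  refine Measure.ext fun A hA => ?_
  have hm : Measurable fun x : ℝ => (3 / 2 : ℝ) * x := by fun_prop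
  rw [Measure.add_apply, Measure.smul_apply, Measure.smul_apply, Measure.map_apply hm hA]
  unfold M
  rw [Measure.sum_apply _ hA, Measure.sum_apply _ (hm hA), tsum_eq_zero_add' ENNReal.summable]
  congr 1
  · simp
  · rw [smul_eq_mul, ← ENNReal.tsum_mul_left]
    refine tsum_congr fun k => ?_
    rw [Measure.smul_apply, Measure.smul_apply, Measure.map_apply (by fun_prop) hA,
      Measure.map_apply (by fun_prop) (hm hA), smul_eq_mul, smul_eq_mul, ← mul_assoc]
    congr 1
    · ring
    · congr 1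
      ext x
      simp only [mem_preimage]
      rw [pow_succ]
      constructor <;> intro h <;> convert h using 1 <;> ring

lemma M_ac : M ≪ volume := by
  unfold M
  refine Measure.absolutelyContinuous_sum_left fun k => ?_
  refine Measure.AbsolutelyContinuous.smul_left ?_ _
  have h1 : U ≪ volume := by
    unfold U
    exact (Measure.absolutelyContinuous_of_le Measure.restrict_le_self).smul_left _
  have h2 := h1.map (f := fun x => (3 / 2 : ℝ) ^ k * x) (by fun_prop)
  refine h2.trans ?_
  rw [Real.map_volume_mul_left (by positivity)]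
  exact Measure.AbsolutelyContinuous.rfl.smul_left _

lemma M_sq : Integrable (fun x : ℝ => x ^ 2) M := by
  refine ⟨by fun_prop, ?_⟩
  rw [HasFiniteIntegral]
  unfold M
  rw [lintegral_sum_measure]
  have hb : ∀ k : ℕ, ∫⁻ x, ‖x ^ 2‖ₑ ∂((5 / 8 * (3 / 8) ^ k : ℝ≥0∞) • U.map
      (fun x => (3 / 2 : ℝ) ^ k * x)) ≤ ENNReal.ofReal ((27 / 32) ^ k * 2) := by
    intro k
    rw [lintegral_smul_measure, lintegral_map (by fun_prop) (by fun_prop)]
    have h1 : ∫⁻ x, ‖((3 / 2 : ℝ) ^ k * x) ^ 2‖ₑ ∂U ≤ ENNReal.ofReal ((9 / 4) ^ k * 2) := by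
      calc ∫⁻ x, ‖((3 / 2 : ℝ) ^ k * x) ^ 2‖ₑ ∂U ≤ ∫⁻ _, ENNReal.ofReal ((9 / 4) ^ k * 2) ∂U := by
            refine lintegral_mono_ae ?_
            filter_upwards [U_mem] with x hx
            rw [← ofReal_norm, Real.norm_of_nonneg (sq_nonneg _)]
            apply ENNReal.ofReal_le_ofReal
            rw [mul_pow, ← pow_mul, mul_comm k 2, pow_mul]
            norm_num
            have : x ^ 2 ≤ 2 := by nlinarith [hx.1, hx.2]
            nlinarith [pow_pos (show (0:ℝ) < 9 / 4 by norm_num) k]
        _ = _ := by simp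
    calc _ ≤ (5 / 8 * (3 / 8) ^ k : ℝ≥0∞) • ENNReal.ofReal ((9 / 4) ^ k * 2) := by
          gcongr
      _ ≤ (1 * (3 / 8) ^ k : ℝ≥0∞) • ENNReal.ofReal ((9 / 4) ^ k * 2) := by
          gcongr
          rw [ENNReal.div_le_iff (by simp) (by simp)]
          norm_num
      _ = ENNReal.ofReal ((27 / 32) ^ k * 2) := by
          rw [one_mul, show (3 / 8 : ℝ≥0∞) = ENNReal.ofReal (3 / 8) by
            rw [ENNReal.ofReal_div_of_pos (by norm_num)]; simp, ← ENNReal.ofReal_pow (by norm_num),
            smul_eq_mul, ← ENNReal.ofReal_mul (by positivity), ← mul_assoc, ← mul_pow]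
          norm_num
  refine lt_of_le_of_lt (ENNReal.tsum_le_tsum hb) ?_
  have hs : Summable fun k : ℕ => (27 / 32 : ℝ) ^ k * 2 :=
    (summable_geometric_of_lt_one (by norm_num) (by norm_num)).mul_right 2
  rw [← ENNReal.ofReal_tsum_of_nonneg (fun k => by positivity) hs]
  exact ENNReal.ofReal_lt_top

lemma M_int : Integrable (fun x : ℝ => x) M := by
  have h : MemLp (fun x : ℝ => x) 2 M := (memLp_two_iff_integrable_sq (by fun_prop)).2 M_sq
  exact h.integrable (by norm_num)

lemma U_mean : ∫ x, x ∂U = 41 / 40 := by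
  unfold U
  rw [integral_smul_measure, integral_Icc_eq_integral_Ioc, ← intervalIntegral.integral_of_le (by norm_num),
    integral_id]
  norm_num

lemma U_int : Integrable (fun x : ℝ => x) U := by
  refine Integrable.of_bound (by fun_prop) 2 ?_
  filter_upwards [U_mem] with x hx
  rw [Real.norm_eq_abs, abs_le]
  constructor <;> linarith [hx.1, hx.2]

lemma M_mean : ∫ x, x ∂M = 41 / 28 := by
  have hm : Measurable fun x : ℝ => (3 / 2 : ℝ) * x := by fun_prop
  have h1 : ∫ x, x ∂M = 5 / 8 * (∫ x, x ∂U) + 3 / 8 * ((3 / 2) * ∫ x, x ∂M) := by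
    conv_lhs => rw [M_self]
    rw [integral_add_measure, integral_smul_measure, integral_smul_measure,
      integral_map (f := fun x : ℝ => x) hm.aemeasurable aestronglyMeasurable_id,
      integral_const_mul]
    · simp
    · exact U_int.smul_measure (ENNReal.div_ne_top (by simp) (by simp))
    · refine Integrable.smul_measure ?_ (ENNReal.div_ne_top (by simp) (by simp))
      refine (integrable_map_measure aestronglyMeasurable_id hm.aemeasurable).2 ?_
      exact M_int.const_mul _
  rw [U_mean] at h1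
  linarith

lemma U_zero {s : Set ℝ} (hs : Disjoint s (Icc (1 : ℝ) (21 / 20))) : U s = 0 := by
  refine measure_mono_null (t := (Icc (1 : ℝ) (21 / 20))ᶜ) ?_ ?_
  · exact fun x hx hx2 => (disjoint_left.1 hs hx) hx2
  · have := U_mem
    rw [ae_iff] at this
    exact this

lemma M_Iio : M (Iio 1) = 0 := by
  unfold M
  rw [Measure.sum_apply _ measurableSet_Iio]
  simp only [ENNReal.tsum_eq_zero]
  intro k
  rw [Measure.smul_apply, Measure.map_apply (by fun_prop) measurableSet_Iio, U_zero, smul_zero]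
  rw [disjoint_left]
  intro x hx hx2
  simp only [mem_preimage, mem_Iio] at hx
  have h1 : (1 : ℝ) ≤ (3 / 2) ^ k := one_le_pow₀ (by norm_num)
  nlinarith [hx2.1]

lemma M_apply (s : Set ℝ) (hs : MeasurableSet s) :
    M s = 5 / 8 * U s + 3 / 8 * M ((fun x => (3 / 2 : ℝ) * x) ⁻¹' s) := by
  have hm : Measurable fun x : ℝ => (3 / 2 : ℝ) * x := by fun_prop
  conv_lhs => rw [M_self]
  rw [Measure.add_apply, Measure.smul_apply, Measure.smul_apply, Measure.map_apply hm hs]
  rfl

/-- conditioned on the right of the mean, the law is the scaled law -/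
lemma M_Ici : M (Ici (41 / 28)) = 3 / 8 := by
  rw [M_apply _ measurableSet_Ici, U_zero, mul_zero, zero_add]
  · have h1 : M ((fun x => (3 / 2 : ℝ) * x) ⁻¹' Ici (41 / 28)) = 1 := by
      rw [prob_compl_eq_zero_iff (by measurability) |>.symm]
      refine measure_mono_null ?_ M_Iio
      intro x hx
      simp only [mem_compl_iff, mem_preimage, mem_Ici, not_le] at hx
      simp only [mem_Iio]; linarith
    rw [h1, mul_one]
  · rw [disjoint_left]
    intro x hx hx2
    simp only [mem_Ici] at hx
    linarith [hx2.2]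

lemma cond_M : ProbabilityTheory.cond M (Ici (41 / 28)) = M.map (fun x => (3 / 2 : ℝ) * x) := by
  have hm : Measurable fun x : ℝ => (3 / 2 : ℝ) * x := by fun_prop
  refine Measure.ext fun A hA => ?_
  rw [cond_apply measurableSet_Ici, M_Ici, M_apply _ (measurableSet_Ici.inter hA), U_zero, mul_zero,
    zero_add, ← mul_assoc, ENNReal.inv_mul_cancel (by simp) (ENNReal.div_ne_top (by simp) (by simp)),
    one_mul, Measure.map_apply hm hA]
  · refine measure_congr ?_
    have h1 : ∀ᵐ x ∂M, 1 ≤ x := by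
      rw [ae_iff]; simpa [Iio] using M_Iio
    filter_upwards [h1] with x hx
    simp only [preimage_inter, eq_iff_iff]
    constructor
    · exact fun h => h.2
    · intro h
      refine ⟨?_, h⟩
      change (41 / 28 : ℝ) ≤ 3 / 2 * x
      linarith
  · rw [disjoint_left]
    intro x hx hx2
    have : (41 / 28 : ℝ) ≤ x := hx.1
    linarith [hx2.2]

lemma tail_T (n : ℕ) : ∀ t : ℝ, (3 / 2) ^ n * (21 / 20) ≤ t → t < (3 / 2) ^ n * (41 / 28) →
    T n M (Ioi t) = (3 / 8) ^ n := by
  induction n with
  | zero =>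
    intro t _ ht
    unfold T
    rw [M_mean, Measure.dirac_apply' _ measurableSet_Ioi]
    simp only [pow_zero, one_mul] at ht ⊢
    simp [ht]
  | succ n ih =>
    intro t ht1 ht2
    have h1 : (1 : ℝ) ≤ (3 / 2) ^ n := one_le_pow₀ (by norm_num)
    rw [pow_succ] at ht1 ht2
    have ht : 21 / 20 ≤ t := by nlinarith
    unfold T
    rw [M_mean, cond_M, M_Ici, T_map _ (by norm_num), Measure.add_apply, Measure.smul_apply,
      Measure.smul_apply, Measure.map_apply (by fun_prop) measurableSet_Ioi]
    have e1 : (fun x : ℝ => 3 / 2 * x) ⁻¹' Ioi t = Ioi (t / (3 / 2)) := by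
      ext x
      simp only [mem_preimage, mem_Ioi]
      rw [div_lt_iff₀ (by norm_num), mul_comm]
    rw [e1, ih (t / (3 / 2)) (by rw [le_div_iff₀ (by norm_num)]; linarith)
      (by rw [div_lt_iff₀ (by norm_num)]; linarith)]
    have e2 : M (Iio (41 / 28)) • T n (ProbabilityTheory.cond M (Iio (41 / 28))) (Ioi t) = 0 := by
      by_cases h0 : M (Iio (41 / 28)) = 0
      · rw [h0]; simp
      · have hp : IsProbabilityMeasure (ProbabilityTheory.cond M (Iio (41 / 28))) := cond_isProbabilityMeasure h0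
        have hz : ProbabilityTheory.cond M (Iio (41 / 28)) (Ioi (21 / 20)) = 0 := by
          rw [cond_apply measurableSet_Iio, Iio_inter_Ioi, M_apply _ measurableSet_Ioo, U_zero,
            mul_zero, zero_add]
          · have : M ((fun x => (3 / 2 : ℝ) * x) ⁻¹' Ioo (21 / 20) (41 / 28)) = 0 := by
              refine measure_mono_null ?_ M_Iio
              intro x hx
              simp only [mem_preimage, mem_Ioo] at hx
              simp only [mem_Iio]; linarith [hx.2]
            rw [this]; simp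
          · rw [disjoint_left]
            intro x hx hx2
            linarith [hx2.2, hx.1]
        have hT := T_supp (21 / 20) n _ hp (cond_integrable M_int h0) hz
        have : T n (ProbabilityTheory.cond M (Iio (41 / 28))) (Ioi t) = 0 :=
          measure_mono_null (Ioi_subset_Ioi ht) hT
        rw [this, smul_zero]
    rw [e2, zero_add, smul_eq_mul, pow_succ, mul_comm]

lemma tail_M (n : ℕ) : ∀ t : ℝ, (3 / 2) ^ n * (21 / 20) ≤ t → t < (3 / 2) ^ n * (3 / 2) →
    M (Ioi t) = (3 / 8) ^ (n + 1) := by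
  have key : ∀ t : ℝ, 21 / 20 ≤ t → M (Ioi t) = 3 / 8 * M (Ioi (t / (3 / 2))) := by
    intro t ht
    rw [M_apply _ measurableSet_Ioi, U_zero, mul_zero, zero_add]
    · congr 2
      ext x
      simp only [mem_preimage, mem_Ioi]
      rw [div_lt_iff₀ (by norm_num), mul_comm]
    · rw [disjoint_left]
      intro x hx hx2
      have : t < x := hx
      linarith [hx2.2]
  induction n with
  | zero =>
    intro t ht1 ht2
    simp only [pow_zero, one_mul] at ht1 ht2
    rw [key t ht1]
    have : M (Ioi (t / (3 / 2))) = 1 := by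
      rw [prob_compl_eq_zero_iff measurableSet_Ioi |>.symm]
      refine measure_mono_null ?_ M_Iio
      intro x hx
      simp only [mem_compl_iff, mem_Ioi, not_lt] at hx
      simp only [mem_Iio]
      have : t / (3 / 2) < 1 := by rw [div_lt_iff₀ (by norm_num)]; linarith
      linarith
    rw [this]; simp
  | succ n ih =>
    intro t ht1 ht2
    have h1 : (1 : ℝ) ≤ (3 / 2) ^ n := one_le_pow₀ (by norm_num)
    rw [pow_succ] at ht1 ht2
    rw [key t (by nlinarith), ih (t / (3 / 2)) (by rw [le_div_iff₀ (by norm_num)]; linarith)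
      (by rw [div_lt_iff₀ (by norm_num)]; linarith)]
    ring

lemma W1_lower (n : ℕ) : ENNReal.ofReal (29 / 112 * (9 / 16) ^ n) ≤ W1 (T n M) M := by
  have hp := T_prob n M inferInstance
  have hI : ∀ (μ : Measure ℝ) [IsProbabilityMeasure μ] (t : ℝ),
      μ.real (Iic t) = 1 - (μ (Ioi t)).toReal := by
    intro μ _ t
    have := prob_compl_eq_one_sub (μ := μ) (measurableSet_Ioi (a := t))
    rw [compl_Ioi] at this
    rw [measureReal_def, this, ENNReal.toReal_sub_of_le prob_le_one (by simp)]
    simp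
  set J : Set ℝ := Ico ((3 / 2) ^ n * (21 / 20)) ((3 / 2) ^ n * (41 / 28)) with hJ
  have hval : ∀ t ∈ J, ENNReal.ofReal |(T n M).real (Iic t) - M.real (Iic t)|
      = ENNReal.ofReal (5 / 8 * (3 / 8) ^ n) := by
    intro t ht
    rw [hI, hI, tail_T n t ht.1 ht.2, tail_M n t ht.1 (ht.2.trans (by
      have : (0 : ℝ) < (3 / 2) ^ n := by positivity
      nlinarith))]
    congr 1
    rw [ENNReal.toReal_pow, ENNReal.toReal_pow, ENNReal.toReal_div]
    norm_num
    rw [abs_of_nonpos (by
      rw [pow_succ]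
      have : (0 : ℝ) < (3 / 8) ^ n := by positivity
      nlinarith)]
    rw [pow_succ]; ring
  unfold W1
  calc ENNReal.ofReal (29 / 112 * (9 / 16) ^ n)
      = ∫⁻ _ in J, ENNReal.ofReal (5 / 8 * (3 / 8) ^ n) := by
        rw [lintegral_const, Measure.restrict_apply_univ, hJ, Real.volume_Ico,
          ← ENNReal.ofReal_mul (by positivity)]
        congr 1
        rw [show (9 / 16 : ℝ) = 3 / 8 * (3 / 2) by norm_num, mul_pow]
        ring
    _ = ∫⁻ t in J, ENNReal.ofReal |(T n M).real (Iic t) - M.real (Iic t)| :=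
        (setLIntegral_congr_fun measurableSet_Ico hval).symm
    _ ≤ _ := setLIntegral_le_lintegral _ _

lemma liminf_lower : ((Real.log (9 / 16) : ℝ) : EReal)
    ≤ liminf (fun n : ℕ => ENNReal.log (W1 (T n M) M) / (n : EReal)) atTop := by
  have hlim : Tendsto (fun n : ℕ => ((Real.log (29 / 112) / n + Real.log (9 / 16) : ℝ) : EReal)) atTop
      (𝓝 ((Real.log (9 / 16) : ℝ) : EReal)) := by
    refine (continuous_coe_real_ereal.tendsto _).comp ?_
    have := (tendsto_const_div_atTop_nhds_zero_nat (Real.log (29 / 112))).add_const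
      (Real.log (9 / 16))
    simpa using this
  rw [← hlim.liminf_eq]
  refine liminf_le_liminf ?_
  filter_upwards [eventually_gt_atTop 0] with n hn
  have h1 := ENNReal.log_monotone (W1_lower n)
  rw [ENNReal.log_ofReal_of_pos (by positivity)] at h1
  have hn' : (0 : ℝ) < n := by exact_mod_cast hn
  have h2 := EReal.div_le_div_right_of_nonneg (c := (n : EReal)) (by exact_mod_cast hn.le) h1
  refine le_trans (le_of_eq ?_) h2
  rw [Real.log_mul (by norm_num) (by positivity), Real.log_pow]
  rw [show ((n : ℕ) : EReal) = (((n : ℕ) : ℝ) : EReal) by rfl, ← EReal.coe_div]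
  congr 1
  field_simp

/-- **Disproof of MP_a33f4b, Q1.** There is an absolutely continuous probability measure `μ` on
`ℝ` with finite second moment such that `W₁(μ⁽ⁿ⁾, μ) ≥ (29/112) (9/16)ⁿ` for every `n`; hence
`liminf (1/n) log W₁(μ⁽ⁿ⁾, μ) ≥ log (9/16) > - log 2`, and in particular
`limsup (1/n) log W₁(μ⁽ⁿ⁾, μ) ≠ - log 2`. -/
theorem result : ∃ μ : Measure ℝ, IsProbabilityMeasure μ ∧ μ ≪ volume ∧
    Integrable (fun x : ℝ => x ^ 2) μ ∧
    (∀ n : ℕ, ENNReal.ofReal (29 / 112 * (9 / 16) ^ n) ≤ W1 (T n μ) μ) ∧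
    ((Real.log (9 / 16) : ℝ) : EReal)
      ≤ liminf (fun n : ℕ => ENNReal.log (W1 (T n μ) μ) / (n : EReal)) atTop ∧
    -Real.log 2 < Real.log (9 / 16) ∧
    limsup (fun n : ℕ => ENNReal.log (W1 (T n μ) μ) / (n : EReal)) atTop
      ≠ ((-Real.log 2 : ℝ) : EReal) := by
  have hlog : -Real.log 2 < Real.log (9 / 16) := by
    rw [← Real.log_inv]
    exact Real.log_lt_log (by norm_num) (by norm_num)
  refine ⟨M, inferInstance, M_ac, M_sq, W1_lower, liminf_lower, hlog, ?_⟩
  have h1 : ((-Real.log 2 : ℝ) : EReal) < ((Real.log (9 / 16) : ℝ) : EReal) := by exact_mod_cast hlog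
  exact (h1.trans_le (liminf_lower.trans (liminf_le_limsup))).ne'

end Pool.Agent.Results.MP_a33f4b_pr.SlowMeanSplit
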